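import Mathlib
import Pool.Agent.H311R2.YL.Growth

/-!
A meromorphic function in the plane with `T(r, f) ≥ c (log r)^3` and without any Yang Lo direction:
`f(z) = P(-iz) / P(z)` with `P(z) = ∏ (1 - z / 2^n)^n`. It has poles of order `n` at `2^n` and zeros
of order `n` at `i 2^n`.

In the half plane `Re z ≤ Im z` one has `|f| ≤ 1`. Off a sector about the positive axis `f` has
polynomial growth, hence some derivative tends to zero. In a thin sector about the positive axis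
both `f` and `f'` tend to infinity: there `|f(z)| ≥ 4^m` for `2^m ≤ |z| < 2^(m+1)`, and the
logarithmic derivative `z f'(z) / f(z) = ∑ n ψ(z / 2^n)` stays away from zero.
-/

open Filter Topology Set Complex

namespace Pool.Agent.Results.MP_bf5cf5_an.LogCubeExample

/-- The open sector `|arg z - θ₀| < ε`: all `z = r e^{iθ}` with `r > 0` and `|θ - θ₀| < ε`. -/
def sector (θ₀ ε : ℝ) : Set ℂ :=
  {z | ∃ r θ : ℝ, 0 < r ∧ |θ - θ₀| < ε ∧ z = (r : ℂ) * Complex.exp ((θ : ℂ) * Complex.I)}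

/-- The solutions of `f^{(k)}(z) = w` (`k = 0` gives `f(z) = w`): points `z` at which `f` is
analytic, that is, `z` is not a pole of the meromorphic function `f`, and `f^{(k)}(z) = w`. -/
def solutions (f : ℂ → ℂ) (k : ℕ) (w : ℂ) : Set ℂ :=
  {z | AnalyticAt ℂ f z ∧ iteratedDeriv k f z = w}

/-- `θ₀` is a Yang Lo direction of `f`: for every `ε > 0`, either `f = a` has infinitely many
solutions in the sector for every finite `a`, or `f^{(k)} = w` has infinitely many solutions in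
the sector for every `k ≥ 1` and every finite `w ≠ 0`. -/
def IsYangLoDirection (f : ℂ → ℂ) (θ₀ : ℝ) : Prop :=
  ∀ ε : ℝ, 0 < ε →
    (∀ a : ℂ, (sector θ₀ ε ∩ solutions f 0 a).Infinite) ∨
    (∀ k : ℕ, 1 ≤ k → ∀ w : ℂ, w ≠ 0 → (sector θ₀ ε ∩ solutions f k w).Infinite)

/-- `f` is rational: it equals a quotient of polynomials `P / Q` off the zeros of `Q ≠ 0`. -/
def IsRational (f : ℂ → ℂ) : Prop :=
  ∃ P Q : Polynomial ℂ, Q ≠ 0 ∧ ∀ z : ℂ, Q.eval z ≠ 0 → f z = P.eval z / Q.eval z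

open Pool.Agent.H311R2.YL

lemma sector_data {θ₀ ε : ℝ} {z : ℂ} (hz : z ∈ sector θ₀ ε) :
    ∃ θ : ℝ, |θ - θ₀| < ε ∧ 0 < ‖z‖ ∧ z.re = ‖z‖ * Real.cos θ ∧ z.im = ‖z‖ * Real.sin θ := by
  obtain ⟨r, θ, hr, hθ, rfl⟩ := hz
  have hn : ‖(r : ℂ) * Complex.exp ((θ : ℂ) * Complex.I)‖ = r := by
    rw [norm_mul, Complex.norm_real, Real.norm_of_nonneg hr.le, Complex.norm_exp_ofReal_mul_I,
      mul_one]
  refine ⟨θ, hθ, by rw [hn]; exact hr, ?_, ?_⟩
  · rw [hn, Complex.re_ofReal_mul, Complex.exp_ofReal_mul_I_re]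
  · rw [hn, Complex.im_ofReal_mul, Complex.exp_ofReal_mul_I_im]

lemma sector_point (θ₀ : ℝ) {ε : ℝ} (hε : 0 < ε) {R : ℝ} (hR : 0 < R) :
    (R : ℂ) * Complex.exp ((θ₀ : ℂ) * Complex.I) ∈ sector θ₀ ε ∧
      ‖(R : ℂ) * Complex.exp ((θ₀ : ℂ) * Complex.I)‖ = R := by
  refine ⟨⟨R, θ₀, hR, by simpa using hε, rfl⟩, ?_⟩
  rw [norm_mul, Complex.norm_real, Real.norm_of_nonneg hR.le, Complex.norm_exp_ofReal_mul_I,
    mul_one]

/-- finiteness of solution sets -/
lemma finite_solutions {S : Set ℂ} (k : ℕ) (w : ℂ) (R : ℝ)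
    (h1 : ∀ z ∈ S, R ≤ ‖z‖ → z ∉ Pol → iteratedDeriv k f z ≠ w)
    {z₁ : ℂ} (hz₁ : z₁ ∉ Pol) (h2 : iteratedDeriv k f z₁ ≠ w) :
    (S ∩ solutions f k w).Finite := by
  have hmero : Meromorphic (fun ζ => iteratedDeriv k f ζ - w) := by
    intro z
    have h1 : MeromorphicAt (iteratedDeriv k f) z := by
      rw [iteratedDeriv_eq_iterate]
      exact (f_meromorphicAt z).iterated_deriv
    exact h1.sub (MeromorphicAt.const w z)
  have hord : ∀ z, ∀ᶠ ζ in 𝓝[≠] z, iteratedDeriv k f ζ - w ≠ 0 := by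
    have h3 : ∃ u, meromorphicOrderAt (fun ζ => iteratedDeriv k f ζ - w) u ≠ ⊤ := by
      refine ⟨z₁, ?_⟩
      rw [meromorphicOrderAt_ne_top_iff_eventually_ne_zero (hmero z₁)]
      have h4 : ContinuousAt (iteratedDeriv k f) z₁ := by
        have := ((f_analyticAt hz₁).iterated_deriv k).continuousAt
        rwa [← iteratedDeriv_eq_iterate] at this
      have h5 := h4.eventually_ne h2
      filter_upwards [nhdsWithin_le_nhds h5] with ζ hζ
      exact sub_ne_zero.2 hζ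
    intro z
    rw [← meromorphicOrderAt_ne_top_iff_eventually_ne_zero (hmero z)]
    exact hmero.exists_meromorphicOrderAt_ne_top_iff_forall.1 h3 z
  have hsub : S ∩ solutions f k w ⊆ Metric.closedBall 0 R := by
    rintro z ⟨hzS, hza, hzw⟩
    rw [mem_closedBall_zero_iff]
    by_contra hlt
    rw [not_le] at hlt
    exact h1 z hzS hlt.le (fun hp => not_analyticAt_pole hp hza) hzw
  by_contra hinf
  obtain ⟨z, -, hacc⟩ := Set.Infinite.exists_accPt_of_subset_isCompact hinf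
    (isCompact_closedBall 0 R) hsub
  rw [accPt_iff_frequently_nhdsNE] at hacc
  obtain ⟨ζ, h1, h2⟩ := (hacc.and_eventually (hord z)).exists
  exact h2 (sub_eq_zero.2 h1.2.2)

/-- some derivative tends to zero off a sector about the positive axis -/
lemma deriv_small {d : ℝ} (hd : 0 < d) (hd2 : d ≤ 1 / 2) :
    ∃ K : ℕ, 1 ≤ K ∧ ∃ R : ℝ, 0 < R ∧ ∀ z : ℂ, R ≤ ‖z‖ → z.re ≤ (1 - 3 * d) * ‖z‖ →
      ‖iteratedDeriv K f z‖ < 1 := by
  obtain ⟨K, hK⟩ := f_growth (κ := 1 - d) (by linarith) (by linarith)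
  set C : ℝ := (K + 1).factorial * 8 ^ K / (d / 2) ^ (K + 1) with hC
  have hCpos : 0 < C := by positivity
  refine ⟨K + 1, by omega, max 2 (C + 1), by positivity, fun z hz hre => ?_⟩
  have hz2 : 2 ≤ ‖z‖ := (le_max_left _ _).trans hz
  have hzC : C < ‖z‖ := by
    have := (le_max_right 2 (C + 1)).trans hz
    linarith
  have hz0 : 0 < ‖z‖ := by linarith
  set ρ : ℝ := d / 2 * ‖z‖ with hρ
  have hρ0 : 0 < ρ := by positivity
  have hball : ∀ ζ ∈ Metric.closedBall z ρ, 1 ≤ ‖ζ‖ ∧ ζ.re ≤ (1 - d) * ‖ζ‖ ∧ ‖ζ‖ ≤ 2 * ‖z‖ := by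
    intro ζ hζ
    rw [mem_closedBall_iff_norm] at hζ
    have h1 : (1 - d / 2) * ‖z‖ ≤ ‖ζ‖ := by
      have := norm_sub_norm_le z ζ
      rw [norm_sub_rev] at this
      linarith
    have h2 : ‖ζ‖ ≤ (1 + d / 2) * ‖z‖ := by
      have := norm_sub_norm_le ζ z
      linarith
    have h3 : ζ.re ≤ z.re + ρ := by
      have h4 : (ζ - z).re ≤ ‖ζ - z‖ := Complex.re_le_norm _
      rw [Complex.sub_re] at h4
      linarith
    refine ⟨by nlinarith, ?_, by nlinarith⟩
    have h5 : (1 - d) * ((1 - d / 2) * ‖z‖) ≤ (1 - d) * ‖ζ‖ := by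
      apply mul_le_mul_of_nonneg_left h1; linarith
    have h6 : 0 ≤ d ^ 2 * ‖z‖ := by positivity
    nlinarith
  have hnp : ∀ ζ ∈ Metric.closedBall z ρ, ζ ∉ Pol := fun ζ hζ =>
    not_pol_of_kappa (κ := 1 - d) (by linarith) (hball ζ hζ).2.1
  have hcauchy := Complex.norm_iteratedDeriv_le_of_forall_mem_sphere_norm_le (f := f) (c := z)
    (R := ρ) (C := (8 * ‖z‖) ^ K) (K + 1) hρ0 (by
      apply DifferentiableOn.diffContOnCl
      intro ζ hζ
      rw [closure_ball z hρ0.ne'] at hζ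
      exact (f_analyticAt (hnp ζ hζ)).differentiableAt.differentiableWithinAt) (by
      intro ζ hζ
      obtain ⟨ha, hb, hc⟩ := hball ζ (Metric.sphere_subset_closedBall hζ)
      refine (hK ζ ha hb).trans ?_
      apply pow_le_pow_left₀ (by positivity)
      linarith)
  refine hcauchy.trans_lt ?_
  have h7 : ((K + 1).factorial : ℝ) * (8 * ‖z‖) ^ K / ρ ^ (K + 1) = C / ‖z‖ := by
    rw [hC, hρ, mul_pow, mul_pow, pow_succ ‖z‖ K]
    field_simp
  rw [h7, div_lt_one hz0]
  exact hzC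

/-- directions other than the positive axis -/
lemma dir_off (θ₀ : ℝ) (h0 : Real.cos θ₀ < 1) : ¬ IsYangLoDirection f θ₀ := by
  set d : ℝ := (1 - Real.cos θ₀) / 4 with hd
  have hd0 : 0 < d := by linarith
  have hd2 : d ≤ 1 / 2 := by linarith [Real.neg_one_le_cos θ₀]
  obtain ⟨K, hK1, R, hR, hK⟩ := deriv_small hd0 hd2
  -- the value omitted near the direction
  have hval : ∃ ε : ℝ, 0 < ε ∧ ε ≤ d ∧ ∃ a : ℂ, ∀ z ∈ sector θ₀ ε, z ∉ Pol → f z ≠ a := by
    by_cases hcs : Real.cos θ₀ < Real.sin θ₀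
    · refine ⟨min d ((Real.sin θ₀ - Real.cos θ₀) / 4), lt_min hd0 (by linarith), min_le_left _ _,
        2, fun z hz _ h => ?_⟩
      obtain ⟨θ, hθ, hn, hre, him⟩ := sector_data hz
      have hθ' : |θ - θ₀| < (Real.sin θ₀ - Real.cos θ₀) / 4 := hθ.trans_le (min_le_right _ _)
      have h1 := (abs_le.1 ((Real.abs_cos_sub_cos_le θ θ₀))).2
      have h2 := (abs_le.1 ((Real.abs_sin_sub_sin_le θ θ₀))).1
      have h3 : Real.cos θ ≤ Real.sin θ := by linarith
      have h4 : z.re ≤ z.im := by rw [hre, him]; gcongr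
      have h5 := f_le_one h4
      rw [h] at h5
      norm_num at h5
    · push Not at hcs
      refine ⟨min d (1 / 4), lt_min hd0 (by norm_num), min_le_left _ _, 0, fun z hz hp => ?_⟩
      apply f_ne_zero hp
      intro n _ h
      obtain ⟨θ, hθ, hn, hre, him⟩ := sector_data hz
      have hθ' : |θ - θ₀| < 1 / 4 := hθ.trans_le (min_le_right _ _)
      have h1 := (abs_le.1 ((Real.abs_cos_sub_cos_le θ θ₀))).1
      have h2 := (abs_le.1 ((Real.abs_sin_sub_sin_le θ θ₀))).2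
      have hzn : ‖z‖ = 2 ^ n := by
        rw [h, norm_mul, Complex.norm_I, one_mul, norm_two_pow]
      have hzre : z.re = 0 := by
        rw [h]; simp [two_pow_im]
      have hzim : z.im = 2 ^ n := by
        rw [h]; simp [two_pow_re]
      rw [hzre] at hre
      rw [hzim, hzn] at him
      have hcos : Real.cos θ = 0 := by
        rcases mul_eq_zero.1 hre.symm with h3 | h3
        · exact absurd h3 hn.ne'
        · exact h3
      have hsin : Real.sin θ = 1 := by
        have h2n : (0 : ℝ) < 2 ^ n := by positivity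
        have : (2 : ℝ) ^ n * 1 = 2 ^ n * Real.sin θ := by linarith
        exact (mul_left_cancel₀ h2n.ne' this).symm
      rw [hcos] at h1
      rw [hsin] at h2
      linarith
  obtain ⟨ε, hε, hεd, a, ha⟩ := hval
  have hre : ∀ z ∈ sector θ₀ ε, z.re ≤ (1 - 3 * d) * ‖z‖ := by
    intro z hz
    obtain ⟨θ, hθ, hn, hre, -⟩ := sector_data hz
    have h1 := (abs_le.1 ((Real.abs_cos_sub_cos_le θ θ₀))).2
    have h2 : Real.cos θ ≤ 1 - 3 * d := by linarith
    rw [hre, mul_comm]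
    gcongr
  intro hY
  rcases hY ε hε with h | h
  · apply h a
    rw [Set.eq_empty_of_forall_notMem (s := sector θ₀ ε ∩ solutions f 0 a)]
    · exact Set.finite_empty
    · rintro z ⟨hzS, hza, hzw⟩
      rw [iteratedDeriv_zero] at hzw
      exact ha z hzS (fun hp => not_analyticAt_pole hp hza) hzw
  · apply h K hK1 1 one_ne_zero
    have hne : ∀ z ∈ sector θ₀ ε, R ≤ ‖z‖ → iteratedDeriv K f z ≠ 1 := by
      intro z hz hRz h1
      have h2 := hK z hRz (hre z hz)
      rw [h1, norm_one] at h2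
      exact lt_irrefl _ h2
    obtain ⟨hp1, hp2⟩ := sector_point θ₀ hε hR
    refine finite_solutions K 1 R (fun z hz hRz _ => hne z hz hRz)
      (z₁ := (R : ℂ) * Complex.exp ((θ₀ : ℂ) * Complex.I)) ?_ (hne _ hp1 hp2.ge)
    exact not_pol_of_kappa (κ := 1 - 3 * d) (by linarith) (hre _ hp1)

/-- the direction of the positive axis -/
lemma dir_on (θ₀ : ℝ) (h0 : Real.cos θ₀ = 1) : ¬ IsYangLoDirection f θ₀ := by
  have hsin0 : Real.sin θ₀ = 0 := by
    have := Real.sin_sq_add_cos_sq θ₀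
    rw [h0] at this
    nlinarith
  obtain ⟨ε, hε⟩ : ∃ ε : ℝ, ε = 1 / 1000000 := ⟨_, rfl⟩
  have hε0 : 0 < ε := by rw [hε]; norm_num
  have hV : ∀ z ∈ sector θ₀ ε, z ∈ V := by
    intro z hz
    obtain ⟨θ, hθ, hn, hre, him⟩ := sector_data hz
    have h1 := (abs_le.1 ((Real.abs_cos_sub_cos_le θ θ₀))).1
    have h2 := Real.abs_sin_sub_sin_le θ θ₀
    rw [hsin0, sub_zero] at h2
    have hcos : 1 / 2 ≤ Real.cos θ := by linarith
    have hsin : |Real.sin θ| ≤ Real.cos θ / 100000 := by linarith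
    refine ⟨by rw [hre]; positivity, ?_⟩
    rw [hre, him, abs_mul, abs_of_pos hn, mul_div_assoc]
    gcongr
  intro hY
  have hlarge : ∀ z ∈ sector θ₀ ε, 64 ≤ ‖z‖ → z ∉ Pol → iteratedDeriv 1 f z ≠ 1 := by
    intro z hz h64 hp h1
    rw [iteratedDeriv_one] at h1
    obtain ⟨m, hm1, hm2⟩ := exists_nat_pow_near (show (1 : ℝ) ≤ ‖z‖ by linarith)
      (one_lt_two : (1 : ℝ) < 2)
    have hm6 : 6 ≤ m := by
      by_contra hcon
      push Not at hcon
      have : (2 : ℝ) ^ (m + 1) ≤ 2 ^ 6 := pow_le_pow_right₀ (by norm_num) (by omega)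
      linarith
    have h2 := deriv_f_lower (hV z hz) hp (by omega) hm1 hm2
    have h3 : (2 : ℝ) ^ 6 ≤ 2 ^ m := pow_le_pow_right₀ (by norm_num) hm6
    rw [h1, norm_one] at h2
    linarith
  rcases hY ε hε0 with h | h
  · apply h 0
    rw [Set.eq_empty_of_forall_notMem (s := sector θ₀ ε ∩ solutions f 0 0)]
    · exact Set.finite_empty
    · rintro z ⟨hzS, hza, hzw⟩
      rw [iteratedDeriv_zero] at hzw
      refine f_ne_zero (fun hp => not_analyticAt_pole hp hza) ?_ hzw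
      intro n _ h1
      have h2 := (hV z hzS).1
      rw [h1] at h2
      simp [two_pow_im] at h2
  · apply h 1 le_rfl 1 one_ne_zero
    obtain ⟨hp1, hp2⟩ := sector_point θ₀ hε0 (R := 96) (by norm_num)
    have hnp : ((96 : ℝ) : ℂ) * Complex.exp ((θ₀ : ℂ) * Complex.I) ∉ Pol := by
      rintro ⟨n, _, h1⟩
      rw [h1, norm_two_pow] at hp2
      have h2 : (2 : ℕ) ^ n = 96 := by exact_mod_cast hp2
      rcases Nat.lt_or_ge n 7 with h3 | h3
      · have : (2 : ℕ) ^ n ≤ 2 ^ 6 := Nat.pow_le_pow_right (by norm_num) (by omega)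
        omega
      · have : (2 : ℕ) ^ 7 ≤ 2 ^ n := Nat.pow_le_pow_right (by norm_num) h3
        omega
    exact finite_solutions 1 1 64 hlarge hnp (hlarge _ hp1 (by rw [hp2]; norm_num) hnp)

theorem no_direction (θ₀ : ℝ) : ¬ IsYangLoDirection f θ₀ := by
  rcases (Real.cos_le_one θ₀).lt_or_eq with h | h
  · exact dir_off θ₀ h
  · exact dir_on θ₀ h

theorem not_rational : ¬ IsRational f := by
  rintro ⟨A, Q, hQ, hAQ⟩
  have hroot : ∀ n : ℕ, Q.eval ((2 : ℂ) ^ (n + 1)) = 0 := by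
    intro n
    by_contra hne
    apply not_analyticAt_pole (z := (2 : ℂ) ^ (n + 1)) ⟨n + 1, by omega, rfl⟩
    have h1 : AnalyticAt ℂ (fun z => A.eval z / Q.eval z) ((2 : ℂ) ^ (n + 1)) :=
      (A.differentiable.analyticAt _).fun_div (Q.differentiable.analyticAt _) hne
    refine h1.congr ?_
    filter_upwards [Q.continuous.continuousAt.eventually_ne hne] with z hz
    exact (hAQ z hz).symm
  apply hQ
  apply Polynomial.eq_zero_of_infinite_isRoot
  have hinj : Function.Injective fun n : ℕ => (2 : ℂ) ^ (n + 1) := by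
    intro a b hab
    have hab' : (2 : ℂ) ^ (a + 1) = 2 ^ (b + 1) := hab
    have h3 : (2 : ℕ) ^ (a + 1) = 2 ^ (b + 1) := by exact_mod_cast hab'
    have := Nat.pow_right_injective le_rfl h3
    omega
  refine (Set.infinite_range_of_injective hinj).mono ?_
  rintro _ ⟨n, rfl⟩
  exact hroot n

/-- There is a meromorphic function `f` in the plane (in normal form: analytic off its poles, value
`0` at the poles), not rational, whose Nevanlinna characteristic satisfies
`T(r, f) ≥ c (log r)^3` for all large `r` (so `T(r, f) / (log r)^2 → ∞`), and that has no Yang Lo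
direction. -/
theorem result : ∃ f : ℂ → ℂ, MeromorphicNFOn f univ ∧ ¬ IsRational f ∧
    (∃ c : ℝ, 0 < c ∧ ∀ᶠ r : ℝ in atTop,
      c * Real.log r ^ 3 ≤ ValueDistribution.characteristic f ⊤ r) ∧
    Tendsto (fun r : ℝ => ValueDistribution.characteristic f ⊤ r / Real.log r ^ 2) atTop atTop ∧
    ∀ θ₀ : ℝ, ¬ IsYangLoDirection f θ₀ :=
  ⟨f, f_NF, not_rational, T_lower, T_quot, no_direction⟩

end Pool.Agent.Results.MP_bf5cf5_an.LogCubeExample
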